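import Mathlib

open Set

namespace Pool.Agent.MP_b12348_gt

universe u v

/-- A partial affine map `X ⇀ Y` between subsets of real vector spaces. Only the values of
`toFun` on `dom` matter. -/
structure PartialAffine {V : Type*} {W : Type*} [AddCommGroup V] [Module ℝ V]
    [AddCommGroup W] [Module ℝ W] (X : Set V) (Y : Set W) where
  dom : Set V
  toFun : V → W
  dom_subset : dom ⊆ X
  maps_to : ∀ a ∈ dom, toFun a ∈ Y
  combo_mem : ∀ a ∈ dom, ∀ b ∈ dom, ∀ t : ℝ, 0 ≤ t → t ≤ 1 → t • a + (1 - t) • b ∈ dom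
  map_combo : ∀ a ∈ dom, ∀ b ∈ dom, ∀ t : ℝ, 0 ≤ t → t ≤ 1 →
    toFun (t • a + (1 - t) • b) = t • toFun a + (1 - t) • toFun b

/-- `φ` is onto: its image is `Y`. -/
def PartialAffine.IsOnto {V : Type*} {W : Type*} [AddCommGroup V] [Module ℝ V]
    [AddCommGroup W] [Module ℝ W] {X : Set V} {Y : Set W} (φ : PartialAffine X Y) : Prop :=
  φ.toFun '' φ.dom = Y

/-- `h = p ∘ k` as partial maps, with equality of domains. -/
def IsComp {U : Type*} {V : Type*} {W : Type*} [AddCommGroup U] [Module ℝ U] [AddCommGroup V]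
    [Module ℝ V] [AddCommGroup W] [Module ℝ W] {X : Set U} {Y : Set V} {Z : Set W}
    (h : PartialAffine X Z) (p : PartialAffine Y Z) (k : PartialAffine X Y) : Prop :=
  h.dom = {a | a ∈ k.dom ∧ k.toFun a ∈ p.dom} ∧ ∀ a ∈ h.dom, h.toFun a = p.toFun (k.toFun a)

/-- The convex-form space `ΩC` of affine maps `C → [0,1]`, as a set of functions on `C`. -/
def Forms {E : Type*} [AddCommGroup E] [Module ℝ E] (C : Set E) : Set (C → ℝ) :=
  {ω | (∀ a, 0 ≤ ω a ∧ ω a ≤ 1) ∧
    ∀ (a b : C) (t : ℝ), 0 ≤ t → t ≤ 1 → ∀ h : t • (a : E) + (1 - t) • (b : E) ∈ C,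
      ω ⟨t • (a : E) + (1 - t) • (b : E), h⟩ = t * ω a + (1 - t) * ω b}

/-- A polytope: a compact convex set with finitely many extreme points. -/
def IsPolytope {E : Type*} [NormedAddCommGroup E] [NormedSpace ℝ E] (C : Set E) : Prop :=
  IsCompact C ∧ Convex ℝ C ∧ (C.extremePoints ℝ).Finite

/-- `T` is a `d`-dimensional simplex. -/
def IsSimplex {E : Type*} [AddCommGroup E] [Module ℝ E] (d : ℕ) (T : Set E) : Prop :=
  ∃ v : Fin (d + 1) → E, AffineIndependent ℝ v ∧ T = convexHull ℝ (range v)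

/-- The conditions on `f : T ⇀ C`, `g : ΩT ⇀ ΩC` in the definition of a simplicial refinement
`(T, ΩT, f, g)` of `(C, ΩC)` (besides `T` being a simplex). -/
structure IsRefinement {E : Type*} {F : Type*} [AddCommGroup E] [Module ℝ E]
    [AddCommGroup F] [Module ℝ F] {C : Set E} {T : Set F}
    (f : PartialAffine T C) (g : PartialAffine (Forms T) (Forms C)) : Prop where
  onto_f : f.IsOnto
  onto_g : g.IsOnto
  compat : ∀ ω ∈ g.dom, ∀ (a : F) (ha : a ∈ f.dom),
    g.toFun ω ⟨f.toFun a, f.maps_to a ha⟩ = ω ⟨a, f.dom_subset ha⟩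

/-- The data `T₀, p` for a set `C`: an enumeration `c` of the `m` extreme points of `C`, a
simplex `T₀` with vertices `e i`, `i < m`, and the total affine map `p : T₀ → C` with
`p (e i) = c i`. -/
structure ProjectionSimplex {E : Type*} [AddCommGroup E] [Module ℝ E] (C : Set E) where
  m : ℕ
  c : Fin m → E
  c_injective : Function.Injective c
  range_c : range c = C.extremePoints ℝ
  V₀ : Type
  [addCommGroup : AddCommGroup V₀]
  [module : Module ℝ V₀]
  e : Fin m → V₀
  indep : AffineIndependent ℝ e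
  p : PartialAffine (convexHull ℝ (range e)) C
  total : p.dom = convexHull ℝ (range e)
  map_vertex : ∀ i, p.toFun (e i) = c i

attribute [instance] ProjectionSimplex.addCommGroup ProjectionSimplex.module

/-- The simplex `T₀`. -/
def ProjectionSimplex.T₀ {E : Type*} [AddCommGroup E] [Module ℝ E] {C : Set E}
    (P : ProjectionSimplex C) : Set P.V₀ := convexHull ℝ (range P.e)

/-- The factorisation asked for in the problem: `f = p ∘ f'` and `g = g₀ ∘ g'` where
`(T₀, ΩT₀, p, g₀)` is a refinement of `(C, ΩC)` and `(T, ΩT, f', g')` is a refinement of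
`(T₀, ΩT₀)`. -/
def Factors {E : Type*} {F : Type*} [AddCommGroup E] [Module ℝ E]
    [AddCommGroup F] [Module ℝ F] {C : Set E} {T : Set F}
    (f : PartialAffine T C) (g : PartialAffine (Forms T) (Forms C))
    (P : ProjectionSimplex C) : Prop :=
  ∃ (g₀ : PartialAffine (Forms P.T₀) (Forms C)) (f' : PartialAffine T P.T₀)
    (g' : PartialAffine (Forms T) (Forms P.T₀)),
    IsRefinement (C := C) (T := P.T₀) P.p g₀ ∧ IsRefinement (C := P.T₀) (T := T) f' g' ∧
      IsComp f P.p f' ∧ IsComp g g₀ g'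

end Pool.Agent.MP_b12348_gt
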