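import Mathlib
import Pool.Agent.MP_b12348_gt.Defs

open Set

namespace Pool.Agent.MP_b12348_gt

variable {n : ℕ}

/-- The vector `e_i - e_j`. -/
noncomputable def gen (i j : Fin n) : Fin n → ℝ := Pi.single i 1 - Pi.single j 1

/-- The vectors `e_i - e_j`, `i ≠ j`. -/
def gens (n : ℕ) : Set (Fin n → ℝ) := {x | ∃ i j : Fin n, i ≠ j ∧ x = gen i j}

/-- The polytope `C`. -/
def CC (n : ℕ) : Set (Fin n → ℝ) := convexHull ℝ (gens n)

theorem gens_eq_image : gens n = (fun p : Fin n × Fin n => gen p.1 p.2) ''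
    ((Finset.univ : Finset (Fin n)).offDiag : Set (Fin n × Fin n)) := by
  ext x
  constructor
  · rintro ⟨i, j, hij, rfl⟩
    exact ⟨(i, j), by simpa using hij, rfl⟩
  · rintro ⟨⟨i, j⟩, hij, rfl⟩
    exact ⟨i, j, by simpa using hij, rfl⟩

theorem gens_finite : (gens n).Finite := by
  rw [gens_eq_image]
  exact (Finset.finite_toSet _).image _

theorem gen_apply (i j k : Fin n) :
    gen i j k = (if k = i then 1 else 0) - (if k = j then 1 else 0) := by
  simp [gen, Pi.single_apply]

theorem gen_injOn : InjOn (fun p : Fin n × Fin n => gen p.1 p.2)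
    ((Finset.univ : Finset (Fin n)).offDiag : Set (Fin n × Fin n)) := by
  rintro ⟨i, j⟩ hij ⟨i', j'⟩ hij' h
  have hij : i ≠ j := by simpa using hij
  have hij' : i' ≠ j' := by simpa using hij'
  have h' : gen i j = gen i' j' := h
  have h1 := congrFun h' i
  have h2 := congrFun h' j
  simp only [gen_apply] at h1 h2
  have e1 : i = i' := by
    by_contra hne
    by_cases h3 : i = j'
    · subst h3
      simp [hij, hne] at h1
      norm_num at h1
    · simp [hij, hne, h3] at h1
  have e2 : j = j' := by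
    by_contra hne
    by_cases h3 : j = i'
    · subst h3
      simp [hij.symm, hne] at h2
      norm_num at h2
    · simp [hij.symm, hne, h3] at h2
  rw [e1, e2]

theorem ncard_gens : (gens n).ncard = n * (n - 1) := by
  rw [gens_eq_image, gen_injOn.ncard_image, ncard_coe_finset, Finset.offDiag_card]
  simp [Nat.mul_sub]

theorem CC_bound {x : Fin n → ℝ} (hx : x ∈ CC n) : ∑ k, x k = 0 ∧ ∑ k, |x k| ≤ 2 := by
  have hconv : Convex ℝ {x : Fin n → ℝ | ∑ k, x k = 0 ∧ ∑ k, |x k| ≤ 2} := by
    rintro x ⟨hx1, hx2⟩ y ⟨hy1, hy2⟩ a b ha hb hab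
    refine ⟨?_, ?_⟩
    · simp only [Pi.add_apply, Pi.smul_apply, smul_eq_mul, Finset.sum_add_distrib,
        ← Finset.mul_sum, hx1, hy1]
      ring
    · calc ∑ k, |(a • x + b • y) k| ≤ ∑ k, (a * |x k| + b * |y k|) := by
            apply Finset.sum_le_sum
            intro k _
            simp only [Pi.add_apply, Pi.smul_apply, smul_eq_mul]
            calc |a * x k + b * y k| ≤ |a * x k| + |b * y k| := abs_add_le _ _
              _ = a * |x k| + b * |y k| := by
                rw [abs_mul, abs_mul, abs_of_nonneg ha, abs_of_nonneg hb]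
        _ = a * ∑ k, |x k| + b * ∑ k, |y k| := by
            rw [Finset.sum_add_distrib, Finset.mul_sum, Finset.mul_sum]
        _ ≤ 2 := by nlinarith
  refine convexHull_min ?_ hconv hx
  rintro _ ⟨i, j, hij, rfl⟩
  refine ⟨?_, ?_⟩
  · simp [gen]
  · calc ∑ k, |gen i j k| ≤ ∑ k, (|(Pi.single i (1 : ℝ) : Fin n → ℝ) k| +
          |(Pi.single j (1 : ℝ) : Fin n → ℝ) k|) := by
          apply Finset.sum_le_sum
          intro k _
          exact abs_sub _ _
      _ ≤ 2 := by
          rw [Finset.sum_add_distrib]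
          have h : ∀ i : Fin n, ∑ k, |(Pi.single i (1 : ℝ) : Fin n → ℝ) k| = 1 := by
            intro i
            rw [Finset.sum_eq_single i]
            · simp
            · intro b _ hb
              simp [hb]
            · simp
          rw [h, h]
          norm_num

theorem CC_le_two {x : Fin n → ℝ} (hx : x ∈ CC n) {i j : Fin n} (hij : i ≠ j) :
    x i - x j ≤ 2 := by
  obtain ⟨-, h2⟩ := CC_bound hx
  have h3 : ∑ k ∈ ({i, j} : Finset (Fin n)), |x k| ≤ ∑ k, |x k| :=
    Finset.sum_le_sum_of_subset_of_nonneg (Finset.subset_univ _) (fun _ _ _ => abs_nonneg _)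
  rw [Finset.sum_pair hij] at h3
  have h4 := le_abs_self (x i)
  have h5 := neg_abs_le (x j)
  linarith

theorem CC_eq_of_two {x : Fin n → ℝ} (hx : x ∈ CC n) {i j : Fin n} (hij : i ≠ j)
    (h : x i - x j = 2) : x = gen i j := by
  obtain ⟨h1, h2⟩ := CC_bound hx
  have h4 := le_abs_self (x i)
  have h5 := neg_abs_le (x j)
  have hrest : ∀ k, k ≠ i → k ≠ j → x k = 0 := by
    intro k hki hkj
    have h3 : ∑ k ∈ ({i, j, k} : Finset (Fin n)), |x k| ≤ ∑ k, |x k| :=
      Finset.sum_le_sum_of_subset_of_nonneg (Finset.subset_univ _) (fun _ _ _ => abs_nonneg _)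
    rw [Finset.sum_insert (by simp [hij, hki.symm]), Finset.sum_pair hkj.symm] at h3
    have : |x k| ≤ 0 := by linarith
    exact abs_eq_zero.1 (le_antisymm this (abs_nonneg _))
  have hsum : x i + x j = 0 := by
    rw [← h1, ← Finset.sum_pair hij (f := fun k => x k)]
    apply Finset.sum_subset (Finset.subset_univ _)
    intro k _ hk
    simp only [Finset.mem_insert, Finset.mem_singleton, not_or] at hk
    exact hrest k hk.1 hk.2
  ext k
  rw [gen_apply]
  by_cases hki : k = i
  · subst hki
    simp only [if_true, hij, if_false]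
    linarith
  · by_cases hkj : k = j
    · subst hkj
      simp only [hki, if_true, if_false]
      linarith
    · simp [hki, hkj, hrest k hki hkj]

theorem extremePoints_CC : (CC n).extremePoints ℝ = gens n := by
  apply Subset.antisymm extremePoints_convexHull_subset
  rintro _ ⟨i, j, hij, rfl⟩
  rw [mem_extremePoints_iff_left]
  refine ⟨subset_convexHull ℝ _ ⟨i, j, hij, rfl⟩, ?_⟩
  rintro x hx y hy ⟨a, b, ha, hb, hab, heq⟩
  apply CC_eq_of_two hx hij
  have h1 := CC_le_two hx hij
  have h2 := CC_le_two hy hij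
  have h3 := congrFun heq i
  have h4 := congrFun heq j
  simp only [Pi.add_apply, Pi.smul_apply, smul_eq_mul, gen_apply, if_true, hij, hij.symm,
    if_false] at h3 h4
  have h5 : a * (x i - x j) + b * (y i - y j) = 2 := by linarith
  by_contra hne
  have h6 : x i - x j < 2 := lt_of_le_of_ne h1 hne
  nlinarith

theorem isPolytope_CC : IsPolytope (CC n) :=
  ⟨gens_finite.isCompact_convexHull ℝ, convex_convexHull ℝ _, by
    rw [extremePoints_CC]
    exact gens_finite⟩

theorem not_isSimplex_CC (hn : 4 ≤ n) (d : ℕ) : ¬ IsSimplex d (CC n) := by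
  rintro ⟨v, hv, hC⟩
  have h1 : gens n ⊆ range v := by
    rw [← extremePoints_CC, hC]
    exact extremePoints_convexHull_subset
  have h2 : n * (n - 1) ≤ d + 1 := by
    rw [← ncard_gens]
    refine le_trans (ncard_le_ncard h1 (finite_range v)) ?_
    rw [← image_univ]
    refine le_trans (ncard_image_le finite_univ) ?_
    simp
  have h3 := hv.card_le_finrank_succ
  rw [Fintype.card_fin] at h3
  have h4 : Module.finrank ℝ (vectorSpan ℝ (range v)) ≤ n := by
    refine le_trans (Submodule.finrank_le _) ?_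
    simp
  obtain ⟨m, rfl⟩ : ∃ m, n = m + 4 := ⟨n - 4, by omega⟩
  have h5 : (m + 4) * (m + 4 - 1) ≤ m + 4 + 1 := by omega
  have h6 : m + 4 - 1 = m + 3 := by omega
  rw [h6] at h5
  nlinarith

theorem isSimplex_stdSimplex {ι : Type} [Fintype ι] [DecidableEq ι] {d : ℕ}
    (hd : Fintype.card ι = d + 1) : IsSimplex d (stdSimplex ℝ ι) := by
  have e : Fin (d + 1) ≃ ι := (Fintype.equivFinOfCardEq hd).symm
  have hind : AffineIndependent ℝ (fun i : ι => (Pi.single i 1 : ι → ℝ)) := by
    have hfun : (fun i : ι => (Pi.single i 1 : ι → ℝ)) = ⇑(Pi.basisFun ℝ ι) := by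
      ext i
      simp
    rw [hfun]
    exact (Pi.basisFun ℝ ι).linearIndependent.affineIndependent
  refine ⟨fun k => Pi.single (e k) 1, hind.comp_embedding e.toEmbedding, ?_⟩
  rw [← convexHull_rangle_single_eq_stdSimplex ℝ ι]
  congr 1
  have : (fun k => (Pi.single (e k) 1 : ι → ℝ)) = (fun i => (Pi.single i 1 : ι → ℝ)) ∘ e := rfl
  rw [this, e.surjective.range_comp]

end Pool.Agent.MP_b12348_gt
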